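import Mathlib
import Pool.Agent.Y633.Dep.Defs

/-!
# Paths from inputs to gates that avoid a set of gates

Definitions only.
-/

open Finset

namespace Pool.Agent.Y633.Wire

open Pool.Agent.Y633.Dep

/-- Gate `i` can be reached from an input in `G` by a path all of whose gates, except possibly the
last one `i`, are outside `R`. -/
inductive Reached {n q : ℕ} (C : Circuit n q) (G : Finset (Fin n)) (R : Finset (Fin C.size)) :
    Fin C.size → Prop
  | input (i : Fin C.size) (a : Fin (C.arity i)) (g : Fin n)
      (h : C.src i a = Sum.inl (Sum.inl g)) (hg : g ∈ G) : Reached C G R i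
  | gate (i : Fin C.size) (a : Fin (C.arity i)) (j : Fin C.size) (h : C.src i a = Sum.inr j)
      (hj : j ∉ R) (hr : Reached C G R j) : Reached C G R i

/-- A path (possibly of length `0`) leads from gate `j` to a gate in `T`. -/
inductive Leads {n q : ℕ} (C : Circuit n q) (T : Finset (Fin C.size)) : Fin C.size → Prop
  | base (j : Fin C.size) (h : j ∈ T) : Leads C T j
  | step (j : Fin C.size) (i : Fin C.size) (a : Fin (C.arity i)) (h : C.src i a = Sum.inr j)
      (hl : Leads C T i) : Leads C T j

/-- What feeds a wire lies on a path from `G` avoiding `R`: it is an input in `G`, or a gate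
outside `R` that can be reached from `G` by a path avoiding `R`. -/
def LiveSrc {n q : ℕ} (C : Circuit n q) (G : Finset (Fin n)) (R : Finset (Fin C.size)) :
    Src n q C.size → Prop
  | Sum.inl (Sum.inl g) => g ∈ G
  | Sum.inl (Sum.inr _) => False
  | Sum.inr j => j ∉ R ∧ Reached C G R j

open Classical in
/-- The wires on the paths that start at an input in `G`, end at a gate of `R` or at the output
gate, and whose inner gates are outside `R`.  A wire is given by the gate it enters and its
position there. -/
noncomputable def pathWires {n q : ℕ} (C : Circuit n q) (G : Finset (Fin n))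
    (R : Finset (Fin C.size)) : Finset (Σ i : Fin C.size, Fin (C.arity i)) :=
  univ.filter fun w => LiveSrc C G R (C.src w.1 w.2) ∧ Leads C (insert C.out R) w.1

end Pool.Agent.Y633.Wire
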